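import Pool.Agent.helper70.BND.SpecH

set_option autoImplicit false

open scoped Topology
open Finset

namespace Pool.Agent.BND.EX

theorem FWA_flat (h : ℕ → ℕ) (f : ℕ → List (ℕ × ℝ)) (g : ℕ → ℕ) (u : List ℕ) (hu : ∀ v ∈ u, hw h (f v) = g v) :
    hw h (u.flatMap f) = (u.map g).sum := by
  induction u with
  | nil => rfl
  | cons v u ih =>
    rw [List.flatMap_cons, hw_append, hu v (List.mem_cons_self ..), List.map_cons, List.sum_cons,
      ih fun x hx => hu x (List.mem_cons_of_mem _ hx)]

theorem FWA_vw (n : ℕ) (X : List ℕ) (hX : ∀ v ∈ X, v < n) : ∀ a ∈ vw X, a.1 < n ∧ a.2 = 0 := by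
  intro a ha
  rw [vw, List.mem_map] at ha
  obtain ⟨v, hv, rfl⟩ := ha
  exact ⟨hX v hv, rfl⟩

theorem FWA (hMKL : MKL_stmt) (hVWC : VWC_stmt) (hSWE : SWE_stmt) (hDLF : DLF_stmt) (hCVF : CVF_stmt) :
    FWA_stmt := by
  intro m A A' M J Rk w hN hW
  obtain ⟨hL, hLh, -⟩ := hMKL A hN.gl
  obtain ⟨hL', hLh', -⟩ := hMKL A' hN.gl'
  obtain ⟨hD1, hD2, -, hD0, hDU, -⟩ := hDLF A.l.N J
  obtain ⟨-, hV⟩ := hVWC A J hN.gl
  obtain ⟨hV1, -, hV3, -⟩ := hV M
  have hbig : ∀ x, x < A'.n → ∀ v, v < A.n → (D0 A.l J).length + 3 ≤ M x v := by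
    intro x hx v hv
    have h1 := hN.big x v hx hv
    refine le_trans ?_ h1
    unfold Nb
    omega
  have hnN : A.n ≤ A.l.N := hL.nN
  have h0n : 0 < A.n := hN.gl.n0
  have h0U : (0 : ℝ) ∈ U := ⟨le_refl _, zero_le_one⟩
  -- heights of the words of the vertices
  have hwv : ∀ v, v < A'.n → hw A.l.h (wv A.l J (M v)) = A'.l.h v := by
    intro v hv
    obtain ⟨-, -, -, -, -, h6⟩ := hV3 v (hbig v hv)
    rw [h6, hLh' v hv, hN.hh v hv]
  -- the shape
  have hsh : ∀ e s, e < A'.l.N → s ∈ U → ∃ P x R,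
      w e s = (0, 0) :: (Dl A.l.N J ++ (P ++ x :: R) ++ [(0, 0)]) ∧
      (∀ a ∈ P ++ R, a.1 < A.n ∨ a.2 ∈ Sj J) ∧ (∀ a ∈ w e s, a.1 < A.l.N ∧ a.2 ∈ U) ∧
      (e < A'.n → x.1 < A.n) := by
    intro e s he hs
    by_cases hv : e < A'.n
    · obtain ⟨-, -, -, -, h5, -⟩ := hV3 e (hbig e hv)
      obtain ⟨y, Y, hY⟩ : ∃ y Y, co A.l J (M e) = y :: Y := by
        cases hc : co A.l J (M e) with
        | nil => exact absurd hc h5
        | cons y Y => exact ⟨y, Y, rfl⟩
      have hX : ∀ v ∈ y :: Y, v < A.n := by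
        rw [← hY]
        exact hV1 e
      have hvw := FWA_vw A.n (y :: Y) hX
      have hweq : w e s = (0, 0) :: (Dl A.l.N J ++ ([] ++ (y, 0) :: vw Y) ++ [(0, 0)]) := by
        rw [hW.vt e s hv, wv, FX, hY]
        rfl
      refine ⟨[], (y, 0), vw Y, hweq, ?_, ?_, fun _ => hX y (List.mem_cons_self ..)⟩
      · intro a ha
        left
        exact (hvw a (by rw [vw_cons]; exact List.mem_cons_of_mem _ (by simpa using ha))).1
      · intro a ha
        rw [hweq] at ha
        rcases List.mem_cons.1 ha with ha | ha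
        · subst ha
          exact ⟨lt_of_lt_of_le h0n hnN, h0U⟩
        · rcases List.mem_append.1 ha with ha | ha
          · rcases List.mem_append.1 ha with ha | ha
            · exact ⟨(hD1 a ha).1, (hD1 a ha).2.1⟩
            · have h1 := hvw a (by rw [vw_cons]; simpa using ha)
              refine ⟨lt_of_lt_of_le h1.1 hnN, ?_⟩
              rw [h1.2]
              exact h0U
          · rw [List.mem_singleton] at ha
            subst ha
            exact ⟨lt_of_lt_of_le h0n hnN, h0U⟩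
    · obtain ⟨d, hd, -⟩ := hW.bd e (not_lt.1 hv) he
      have hq := hd.q s hs
      obtain ⟨P, x, R, h1, h2⟩ := hq.shp
      exact ⟨P, x, R, h1, h2, hq.lett, fun h => absurd h hv⟩
  refine ⟨?_, ?_, ?_, ?_, ?_, ?_, ?_, ?_⟩
  · intro e s he hs
    by_cases hv : e < A'.n
    · rw [hW.vt e s hv, hwv e hv]
    · obtain ⟨d, hd, -⟩ := hW.bd e (not_lt.1 hv) he
      rw [hd.ht s hs, FWA_flat A.l.h _ A'.l.h _ fun v hv' => hwv v (hL'.mem e he false v hv'),
        hL'.ht e he false]
  · intro e s he hs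
    obtain ⟨-, -, -, -, -, h, -⟩ := hsh e s he hs
    exact h
  · intro e s he
    rw [hW.vt e s he, hW.vt e 0 he]
  · intro e s he hs
    obtain ⟨P, x, R, h1, -⟩ := hsh e s he hs
    rw [h1, List.head?_cons]
  · intro e s he hs
    obtain ⟨P, x, R, h1, -⟩ := hsh e s he hs
    rw [h1, ← List.cons_append, List.getLast?_append_of_ne_nil _ (List.cons_ne_nil _ _)]
    rfl
  · intro e he a ha
    have heN : e < A'.l.N := lt_of_lt_of_le he hL'.nN
    obtain ⟨P, x, R, h1, h2, -, h4⟩ := hsh e 0 heN h0U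
    rw [h1] at ha
    rcases List.mem_cons.1 ha with ha | ha
    · subst ha
      exact Or.inl h0n
    · rcases List.mem_append.1 ha with ha | ha
      · rcases List.mem_append.1 ha with ha | ha
        · exact Or.inr (hD1 a ha).2.2
        · rcases List.mem_append.1 ha with ha | ha
          · exact h2 a (List.mem_append.2 (Or.inl ha))
          · rcases List.mem_cons.1 ha with ha | ha
            · subst ha
              exact Or.inl (h4 he)
            · exact h2 a (List.mem_append.2 (Or.inr ha))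
      · rw [List.mem_singleton] at ha
        subst ha
        exact Or.inl h0n
  · intro e s he hs
    obtain ⟨P, x, R, h1, h2, -, -⟩ := hsh e s he hs
    refine ⟨(0, 0) :: (Dl A.l.N J ++ P), x, R ++ [(0, 0)], ?_, ?_⟩
    · rw [h1]
      simp only [List.cons_append, List.append_assoc]
    · intro a ha
      rcases List.mem_append.1 ha with ha | ha
      · rcases List.mem_cons.1 ha with ha | ha
        · subst ha
          exact Or.inl h0n
        · rcases List.mem_append.1 ha with ha | ha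
          · exact Or.inr (hD1 a ha).2.2
          · exact h2 a (List.mem_append.2 (Or.inl ha))
      · rcases List.mem_append.1 ha with ha | ha
        · exact h2 a (List.mem_append.2 (Or.inr ha))
        · rw [List.mem_singleton] at ha
          subst ha
          exact Or.inl h0n
  · intro e' s' he' hs' e t' he ht'
    obtain ⟨P, x, R, h1, -⟩ := hsh e' s' he' hs'
    rw [h1]
    exact List.mem_cons_of_mem _ (List.mem_append.2 (Or.inl (List.mem_append.2 (Or.inl (hD2 e t' he ht')))))

end Pool.Agent.BND.EX
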